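import Pool.Agent.H.MP_5217bf_nt.A

namespace Pool.Agent.Results.MP_5217bf_nt.Yes

open Finset Polynomial Pool.Agent.H.MP_fabcd1_nt Pool.Agent.H.MP_5217bf_nt

/-- `A = {3m + 1 : m ∈ ℕ}` -/
def A : Set ℕ := {a | ∃ m : ℕ, a = 3 * m + 1}

open Classical in
/-- the `A`-partition polynomial `f_{A,n}(t) = ∑ t^{#parts}` over all `A`-partitions of `n` -/
noncomputable def f (S : Set ℕ) (n : ℕ) : ℤ[X] :=
  ∑ p ∈ (univ : Finset n.Partition) with ∀ i ∈ p.parts, i ∈ S, X ^ p.parts.card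

theorem c_eq (n : ℕ) : c w n = (((f A n).eval (-1) : ℤ) : ℂ) := by
  classical
  have hA : ∀ i, i ∈ A ↔ i % 3 = 1 := fun i =>
    ⟨by rintro ⟨m, rfl⟩; omega, fun h => ⟨i / 3, by omega⟩⟩
  simp only [f, eval_finset_sum, eval_pow, eval_X, sum_filter, hA]
  rw [c]
  push_cast
  refine sum_congr rfl fun p _ => ?_
  by_cases h : ∀ i ∈ p.parts, i % 3 = 1
  · rw [Multiset.map_congr rfl (g := fun _ => (-1 : ℂ)) fun i hi => by simp [w, h i hi],
      Multiset.map_const', Multiset.prod_replicate, if_pos h]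
    simp
  · rw [if_neg h]
    push Not at h
    obtain ⟨i, hi, ho⟩ := h
    have h0 : w i = 0 := by simp [w, ho]
    simpa using Multiset.prod_eq_zero (Multiset.mem_map.2 ⟨i, hi, h0⟩)

theorem result : ¬ ∃ p N : ℕ, 1 ≤ p ∧ ∀ n, N ≤ n →
    Int.sign ((f A (n + p)).eval (-1)) = Int.sign ((f A n).eval (-1)) := by
  rintro ⟨T, n₀, hT, hu⟩
  set u : ℕ → ℤ := fun n => Int.sign ((f A n).eval (-1)) with hud
  have per : ∀ k n, n₀ ≤ n → u (n + k * T) = u n := by
    intro k n hn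
    induction k with
    | zero => simp
    | succ k ih =>
      rw [add_mul, one_mul, ← add_assoc, ← ih]
      exact hu _ (by omega)
  refine core (fun n => (u (n + n₀ * T) : ℂ)) T hT (fun n => ?_) n₀ fun n hn => ?_
  · rw [add_right_comm]
    exact congrArg _ (hu _ (by nlinarith))
  · rw [per _ _ hn, c_eq, Complex.norm_intCast, hud]
    have := Int.sign_mul_self_eq_abs ((f A n).eval (-1))
    rw [← Int.cast_mul, this, ← Int.cast_abs, Complex.ofReal_intCast]

end Pool.Agent.Results.MP_5217bf_nt.Yes
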